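import Pool.Agent.AFJ.Defs

/-!
# The Theta threshold inside a stage: virtual final clocks, definitions (block Y of AND2B)

`M` is `G ∘ G` (complex) or `|G|²` (real), `K` bounds the absolute values of its entries. The running
sites which are not yet processed have the clock `lam + P`, `lam` the final clock of the stage; the
virtual matrix `(M⁻¹ - P)⁻¹` is the matrix at the final clocks in the absence of noise. `vir M P w` is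
this matrix applied to `w = lam g` on the running sites.
-/

set_option autoImplicit false

open scoped BigOperators Matrix

noncomputable section

namespace Pool.Agent.ABY

open Pool.Agent.LE.QF Pool.Agent.AFJ

variable {X : Type} [Fintype X] [DecidableEq X]

/-- a real diagonal matrix -/
def dg (𝕜 : Type) [RCLike 𝕜] (P : X → ℝ) : Matrix X X 𝕜 :=
  Matrix.diagonal fun x => ((P x : ℝ) : 𝕜)

/-- `(1 - M P)⁻¹` -/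
def TT {𝕜 : Type} [RCLike 𝕜] (M : Matrix X X 𝕜) (P : X → ℝ) : Matrix X X 𝕜 :=
  (1 - M * dg 𝕜 P)⁻¹

/-- `(1 - M P)⁻¹ M w` -/
def vir {𝕜 : Type} [RCLike 𝕜] (M : Matrix X X 𝕜) (P w : X → ℝ) : X → 𝕜 :=
  TT M P *ᵥ (M *ᵥ fun x => ((w x : ℝ) : 𝕜))

/-- `ψ = w + P be` -/
def psi {𝕜 : Type} [RCLike 𝕜] (P w : X → ℝ) (be : X → 𝕜) (x : X) : 𝕜 :=
  ((w x : ℝ) : 𝕜) + ((P x : ℝ) : 𝕜) * be x

/-- the data of the comparison: `|M| ≤ K`, `P ≥ 0` lives on `U ⊆ A`, and `∑_b K_ab P_b g_b ≤ ρ g_a` on `A` -/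
structure Cmp {𝕜 : Type} [RCLike 𝕜] (M : Matrix X X 𝕜) (K : Matrix X X ℝ) (P g : X → ℝ)
    (U A : Finset X) (ρ : ℝ) : Prop where
  hM : ∀ a b, ‖M a b‖ ≤ K a b
  hP : (∀ x, 0 ≤ P x) ∧ ∀ x, x ∉ U → P x = 0
  hU : U ⊆ A
  hg : ∀ a ∈ A, 0 < g a
  hρ : 0 ≤ ρ ∧ ρ < 1
  hK : ∀ a ∈ A, ∑ b, K a b * P b * g b ≤ ρ * g a

/-- the pair for a network: `|be| + q ≤ (1 + θ) g` on `R`, for the virtual clocks `P` and the weights `w` -/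
def Yin (G : Matrix X X ℂ) (P w g : X → ℝ) (R : Finset X) (θ : ℝ) : Prop :=
  ∀ a ∈ R, ‖vir (BB G) P w a‖ + vir (KK G) P w a ≤ (1 + θ) * g a

/-- the situation of the rows C: a network, the running block `b ⊆ U ⊆ R`, `κ` is at least `c₀ ≤ g ≤ C₀`
times the clocks, the diagonal is comparable with `g` -/
structure YBl (G : Matrix X X ℂ) (κ P w g : X → ℝ) (μ : X → ℂ) (b U R : Finset X)
    (c₀ C₀ κv μs Λ : ℝ) : Prop where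
  net : Net G κ
  hc : 0 < c₀ ∧ c₀ ≤ 1 ∧ 1 ≤ C₀ ∧ 0 < κv ∧ κv ≤ 1 ∧ 0 ≤ μs ∧ 0 ≤ Λ
  hb : b ⊆ U ∧ U ⊆ R
  hg : ∀ a ∈ R, c₀ ≤ g a ∧ g a ≤ C₀ ∧ (G a a).im ≤ 3 / 2 * g a
  hP : (∀ x, 0 ≤ P x) ∧ (∀ x, x ∉ U → P x = 0) ∧ ∀ x ∈ U, 2 * (P x * g x) ≤ κ x
  hw : (∀ x, 0 ≤ w x ∧ w x ≤ κ x) ∧ ∀ x, x ∉ R → w x = 0
  hv : ∀ c ∈ b, κv ≤ κ c
  hμ : (∀ c ∈ b, ‖μ c‖ ≤ μs) ∧ ∀ c, c ∉ b → μ c = 0
  hΛ : ∀ a ∈ R, ∑ c ∈ b, KK G a c ^ 2 ≤ Λ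

end Pool.Agent.ABY
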