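import Pool.Agent.ABY.Defs
import Pool.Agent.AFJ.Stmts

/-!
# The Theta threshold inside a stage: statements (block Y of AND2B, MP_1906c1_mp)

MAIN IDEA. `B = G ∘ G`, `K = |G|²`. Under the ladder flow `B⁻¹ - (clock)` is conserved, so with
`P = (clock) - lam` on the unprocessed running sites, `lam` the final clock of the stage, the vector
`be = (1 - B P)⁻¹ B w`, `w = lam g` on the running sites `R`, has no drift of the first order, also when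
the blocks are processed one after the other; the same for `q = (1 - K P)⁻¹ K w`. The invariant
`|be| + q ≤ (1 + θ) g` on `R` (`Yin`) is not worse at the start of the next stage (VST), is exactly
monotone if any set of sites is frozen (VFR), loses the flux share of `D` if `D` is killed (VKL), and
for `P = 0` it gives `∑_b w_b (Re G_ab)² ≤ ((1 + θ)/2) g_a` (VTH), which is the hypothesis of
`Helper92_AND.ThH` and of the regauging. Everything is in the sup norm.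
-/

set_option autoImplicit false

open scoped BigOperators Matrix

noncomputable section

namespace Pool.Agent.ABY

open Pool.Agent.LE.QF Pool.Agent.AFJ

/-! ### A. Comparison -/

/-- CMP: comparison. Proof: (1) let `r` be the maximum over `a ∈ U` of `(N a - u a) / g a` (if `U` is empty
all sums vanish and the claim is the hypothesis). If `r > 0`, at a maximal `a`:
`N a - u a ≤ ∑_b K_ab P_b (N b - u b) ≤ r ∑_b K_ab P_b g_b ≤ r ρ g_a` (`K ≥ 0` by `hM`, `P = 0` off `U`), so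
`r ≤ ρ r`, a contradiction. So `N ≤ u` on `U`, and then on `A` by the first inequality. (2) (1) for
`N a = ‖f a‖`: `‖f a‖ ≤ ‖f a - ∑ M P f‖ + ∑ K P ‖f‖`. -/
def CmpStmt : Prop :=
  ∀ (𝕜 : Type) [RCLike 𝕜] (X : Type) [Fintype X] [DecidableEq X] (M : Matrix X X 𝕜)
    (K : Matrix X X ℝ) (P g : X → ℝ) (U A : Finset X) (ρ : ℝ), Cmp M K P g U A ρ →
    (∀ N u : X → ℝ, (∀ a ∈ A, N a - ∑ b, K a b * (P b * N b) ≤ u a - ∑ b, K a b * (P b * u b)) →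
      ∀ a ∈ A, N a ≤ u a) ∧
    ∀ (f : X → 𝕜) (u : X → ℝ),
      (∀ a ∈ A, ‖f a - ∑ b, M a b * (((P b : ℝ) : 𝕜) * f b)‖ ≤ u a - ∑ b, K a b * (P b * u b)) →
        ∀ a ∈ A, ‖f a‖ ≤ u a

/-- VEX (uses CMP): existence, the equation, uniqueness, bounds. Proof: (1) if `(1 - M P) f = 0` then CMP
(2) with `u = 0` gives `f = 0` on `A`, so `P f = 0` and `f = M (P f) = 0`: the matrix is injective
(`Matrix.mulVec_injective_iff_isUnit`, `Matrix.isUnit_iff_isUnit_det`). (2) `(1 - M P) be = M w`. (3) the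
same with (1). (4) `f = TT M P h` has `f - M P f = h`; CMP (2) with `u = (c / (1 - ρ)) g`:
`u - K P u ≥ (c / (1 - ρ)) (g - ρ g)`. (5) CMP (2) for `vir M P w` and `u = vir K P w`: `‖(M w) a‖ ≤ (K w) a`
(`Cmp K K ..` holds too, `K ≥ 0`). -/
def VexStmt : Prop :=
  CmpStmt → ∀ (𝕜 : Type) [RCLike 𝕜] (X : Type) [Fintype X] [DecidableEq X] (M : Matrix X X 𝕜)
    (K : Matrix X X ℝ) (P g : X → ℝ) (U A : Finset X) (ρ : ℝ), Cmp M K P g U A ρ →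
    IsUnit (1 - M * dg 𝕜 P).det ∧
    (∀ (w : X → ℝ) (a : X), vir M P w a = ∑ b, M a b * psi P w (vir M P w) b) ∧
    (∀ (w : X → ℝ) (be : X → 𝕜), (∀ a, be a = ∑ b, M a b * psi P w be b) → be = vir M P w) ∧
    (∀ (h : X → 𝕜) (c : ℝ), 0 ≤ c → (∀ a ∈ A, ‖h a‖ ≤ c * g a) →
      ∀ a ∈ A, ‖(TT M P *ᵥ h) a‖ ≤ c / (1 - ρ) * g a) ∧
    ∀ w : X → ℝ, (∀ x, 0 ≤ w x) → ∀ a ∈ A, ‖vir M P w a‖ ≤ vir K P w a

/-- TSP (uses CMP): the bound for square functions. Proof: `f c = TT M P (h c)`, so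
`f c a = h c a + ∑_b M_ab P_b f c b` (VEX (1)). `N a = (∑_c ‖f c a‖²)^(1/2)` satisfies
`N a ≤ V g a + ∑_b K_ab P_b N b` on `A` (Minkowski), CMP (1) with `u = (V / (1 - ρ)) g`. -/
def TspStmt : Prop :=
  CmpStmt → VexStmt → ∀ (𝕜 : Type) [RCLike 𝕜] (X : Type) [Fintype X] [DecidableEq X]
    (M : Matrix X X 𝕜) (K : Matrix X X ℝ) (P g : X → ℝ) (U A : Finset X) (ρ : ℝ),
    Cmp M K P g U A ρ → ∀ (ι : Type) (b : Finset ι) (h : ι → X → 𝕜) (V : ℝ), 0 ≤ V →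
      (∀ a ∈ A, ∑ c ∈ b, ‖h c a‖ ^ 2 ≤ (V * g a) ^ 2) →
        ∀ a ∈ A, ∑ c ∈ b, ‖(TT M P *ᵥ h c) a‖ ^ 2 ≤ (V / (1 - ρ) * g a) ^ 2

/-! ### B. The invariant -/

/-- VST (uses CMP, VEX): the start of a stage. All running sites have the clock `s`, the final clock is
`s / 2`. Proof: `vir M 0 w = M w`. `Cmp` holds for `BB G` and for `KK G` with `K = KK G`, `U = A = R`,
`ρ = (1 + e)/2`. Let `be, q` be the new pair, `be⁰, q⁰` the old one; then `be - B P be = be⁰/2`,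
`q - K P q = q⁰/2`. CMP (2) with `f = be`, `u = ((1 + θ)/(1 - e)) g - q`:
`u - K P u = ((1 + θ)/(1 - e)) (g - q⁰/2) - q⁰/2 ≥ (1 + θ) g/2 - q⁰/2 ≥ ‖be⁰‖/2`, because
`g - q⁰/2 ≥ g (1 - e)/2`. -/
def VstStmt : Prop :=
  CmpStmt → VexStmt → ∀ (X : Type) [Fintype X] [DecidableEq X] (G : Matrix X X ℂ) (g : X → ℝ)
    (R : Finset X) (s e θ : ℝ), 0 < s → 0 ≤ e → e < 1 → 0 ≤ θ → (∀ a ∈ R, 0 < g a) →
    (∀ a ∈ R, ∑ b ∈ R, KK G a b * (s * g b) ≤ (1 + e) * g a) →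
    Yin G 0 (fun x => ind R x * (s * g x)) g R θ →
      Yin G (fun x => ind R x * (s / 2)) (fun x => ind R x * (s / 2 * g x)) g R
        ((1 + θ) / (1 - e) - 1)

/-- VFR (uses CMP, VEX): freezing the sites of `N`, at any moment. Proof: let `be, q` be the pair for
`P, w` and `be', q'` the pair for the new `P', w'`; `δ = be - be'` satisfies
`δ - B P' δ = B (1_N (w + P be))`, `δq = q - q'` the same with `K`. By CMP (2) for `P'` (`Cmp` holds for `P'`)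
and `‖be‖ ≤ q` on `R` (VEX (5)): `‖δ‖ ≤ δq` on `R`, so `‖be'‖ + q' ≤ ‖be‖ + ‖δ‖ + q - δq ≤ ‖be‖ + q`. -/
def VfrStmt : Prop :=
  CmpStmt → VexStmt → ∀ (X : Type) [Fintype X] [DecidableEq X] (G : Matrix X X ℂ)
    (P w g : X → ℝ) (U R N : Finset X) (ρ : ℝ), Cmp (BB G) (KK G) P g U R ρ → N ⊆ R →
    (∀ x, 0 ≤ w x) → ∀ a ∈ R,
      ‖vir (BB G) (fun x => (1 - ind N x) * P x) (fun x => (1 - ind N x) * w x) a‖ +
        vir (KK G) (fun x => (1 - ind N x) * P x) (fun x => (1 - ind N x) * w x) a ≤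
      ‖vir (BB G) P w a‖ + vir (KK G) P w a

/-- VKL (uses CMP, VEX): the start of the kill of `D`: the final clock is `0` on `D` and `s` on the other
running sites. Proof: `be¹ = B w'`, `q¹ = K w'` with the new `w'`: `‖be¹‖ + q¹ ≤ ‖be⁰‖ + q⁰` (the sum over
`D` has the absolute value at most the one of `K`). `Cmp` with `U = D`, `A = R`, `ρ = e`. CMP (2) with
`f = be`, `be - B P be = be¹`, `u = ((1 + θ)/(1 - e)) g - q`: `u - K P u ≥ (1 + θ) g - q¹ ≥ ‖be¹‖` on `R`. -/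
def VklStmt : Prop :=
  CmpStmt → VexStmt → ∀ (X : Type) [Fintype X] [DecidableEq X] (G : Matrix X X ℂ) (g : X → ℝ)
    (R D : Finset X) (s e θ : ℝ), 0 < s → 0 ≤ e → e < 1 → 0 ≤ θ → D ⊆ R → (∀ a ∈ R, 0 < g a) →
    (∀ a ∈ R, ∑ b ∈ D, KK G a b * (s * g b) ≤ e * g a) →
    Yin G 0 (fun x => ind R x * (s * g x)) g R θ →
      Yin G (fun x => ind D x * s) (fun x => ind (R \ D) x * (s * g x)) g R
        ((1 + θ) / (1 - e) - 1)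

/-- VTH: the output. Proof: `vir M 0 w = M w`; `2 (Re z)² = |z|² + Re z²`, and
`Re ∑ w_b G_ab² ≤ ‖∑ w_b G_ab²‖`. -/
def VthStmt : Prop :=
  ∀ (X : Type) [Fintype X] [DecidableEq X] (G : Matrix X X ℂ) (w g : X → ℝ) (R : Finset X)
    (θ : ℝ), Yin G 0 w g R θ → ∀ a ∈ R, ∑ b, w b * (G a b).re ^ 2 ≤ (1 + θ) / 2 * g a

/-- VRG: the change by a regauging or a release (rows `p = G_a.`, `p' = G'_a.`). Proof: the differences are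
at most `∑ w ‖p'² - p²‖ + ∑ |w' - w| ‖p'‖²`, `‖p'² - p²‖ ≤ ‖p' - p‖ (2 ‖p‖ + ‖p' - p‖)` (the same bound for
`|‖p'‖² - ‖p‖²|`), Cauchy-Schwarz with the weights `k`, and `∑ k ‖p'‖² ≤ (γ + δ)²` (Minkowski). -/
def VrgStmt : Prop :=
  ∀ (X : Type) [Fintype X] [DecidableEq X] (p p' : X → ℂ) (k w w' : X → ℝ) (δ γ d : ℝ),
    0 ≤ δ → 0 ≤ γ → 0 ≤ d → (∀ b, 0 ≤ w b ∧ w b ≤ k b) → (∀ b, |w' b - w b| ≤ d * k b) →
    ∑ b, k b * ‖p' b - p b‖ ^ 2 ≤ δ ^ 2 → ∑ b, k b * ‖p b‖ ^ 2 ≤ γ ^ 2 →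
      |‖∑ b, (w' b : ℂ) * p' b ^ 2‖ - ‖∑ b, (w b : ℂ) * p b ^ 2‖| +
        |∑ b, w' b * ‖p' b‖ ^ 2 - ∑ b, w b * ‖p b‖ ^ 2| ≤
      2 * (2 * δ * γ + δ ^ 2) + 2 * d * (γ + δ) ^ 2

/-! ### C. The flow of a block -/

/-- VJT: the jet of the virtual vector; `e` is the error term in the drift of `M` (`EB G μ` or `EK G μ`).
Proof: `F r = 1 - M r * dg (Pf r.1)` has the jet `(1 - v P, - g_c P, - (v 1_b v + e) P + v 1_b)` (`JalStmt`,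
`JmaStmt`; `P' = - 1_b`), `F⁻¹` has `(T, T g_c P T, T ((v 1_b v + e) P - v 1_b) T + ∑ T g_c P T g_c P T)`.
`M w` has `(v w, g_c w, (v 1_b v + e) w)`. The product, with `T v w = be`, `v ψ = be` (`ψ = w + P be`,
`(1 - v P) be = v w`): `LL = T (v 1_b v + e) ψ - T v 1_b be + ∑ T g_c P T g_c ψ`, and `v 1_b v ψ = v 1_b be`
cancels. -/
def VjtStmt : Prop :=
  JalStmt → JmaStmt → ∀ (𝕜 : Type) [RCLike 𝕜] (X : Type) [Fintype X] [DecidableEq X]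
    (b : Finset X) (q : ℝ × (b → ℝ)) (M : ℝ × (b → ℝ) → Matrix X X 𝕜) (v e : Matrix X X 𝕜)
    (gM : b → Matrix X X 𝕜) (Pf : ℝ → X → ℝ) (P w : X → ℝ),
    HM M q v gM (v * dg 𝕜 (ind b) * v + e) →
    (∀ x, ContDiffAt ℝ 2 (fun t => Pf t x) q.1 ∧ Pf q.1 x = P x ∧
      deriv (fun t => Pf t x) q.1 = -ind b x) →
    IsUnit (1 - v * dg 𝕜 P).det → ∀ a,
      HJ (fun r => vir (M r) (Pf r.1) w a) q (vir v P w a)
        (fun c => (TT v P *ᵥ (gM c *ᵥ psi P w (vir v P w))) a)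
        ((TT v P *ᵥ (e *ᵥ psi P w (vir v P w))) a +
          ∑ c, (TT v P *ᵥ (gM c *ᵥ (dg 𝕜 P *ᵥ (TT v P *ᵥ
            (gM c *ᵥ psi P w (vir v P w)))))) a)

/-- VGR (uses VEX, TSP): the gradient. Proof: `Cmp` holds for `BB G`, `KK G` with `U`, `A = R`, `ρ = 3/4`:
`∑ K_ab P_b g_b ≤ (1/2) ∑ κ_b K_ab = (1/2) Im G_aa` (`hw` of `Net`, `hP`). `‖(M w) a‖ ≤ Im G_aa ≤ (3/2) g_a`, so
`‖be_a‖ ≤ 6 g_a` on `R` (VEX (4)) and `‖ψ_y‖ ≤ 4 κ_y` for all `y`. Let `m_zc = ∑_y G_zy ψ_y G_yc` for `BB`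
(`∑_y conj(G_zy) G_yc ψ_y` for `KK`): `(dB G c ψ)_z = - 2 G_zc m_zc`, `(dK G c ψ)_z = - 2 Re (G_zc m_zc)`.
`|m_zc| ≤ 4 (Im G_zz Im G_cc)^(1/2) ≤ 6 C₀`, and `∑_c κ_c |m_zc|² ≤ 16 Im G_zz ≤ 24 C₀` (`hn` with `v_y = ψ_y G_zy / κ_y` or its
conjugate version), so `∑_(c ∈ b) K_zc |m_zc|² ≤ (∑ K_zc²)^(1/2) (∑ |m|⁴)^(1/2) ≤ C (Λ / κv)^(1/2)` for `z ∈ R`. TSP with
`V = C (Λ/κv)^(1/4) / c₀`. -/
def VgrStmt : Prop :=
  CmpStmt → VexStmt → TspStmt → ∀ c₀ C₀ : ℝ, ∃ C : ℝ, 1 ≤ C ∧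
    ∀ (X : Type) [Fintype X] [DecidableEq X] (G : Matrix X X ℂ) (κ P w g : X → ℝ) (μ : X → ℂ)
      (b U R : Finset X) (κv μs Λ : ℝ), YBl G κ P w g μ b U R c₀ C₀ κv μs Λ →
      Cmp (BB G) (KK G) P g U R (3 / 4) ∧ Cmp (KK G) (KK G) P g U R (3 / 4) ∧
      (∀ y, ‖psi P w (vir (BB G) P w) y‖ ≤ 4 * κ y ∧ |psi P w (vir (KK G) P w) y| ≤ 4 * κ y) ∧
      (∀ a ∈ R, ∑ c ∈ b, ‖(TT (BB G) P *ᵥ (dB G c *ᵥ psi P w (vir (BB G) P w))) a‖ ^ 2 ≤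
        C * Real.sqrt (Λ / κv)) ∧
      ∀ a ∈ R, ∑ c ∈ b, ((TT (KK G) P *ᵥ (dK G c *ᵥ psi P w (vir (KK G) P w))) a) ^ 2 ≤
        C * Real.sqrt (Λ / κv)

/-- VDR (uses VEX, TSP, VGR, `EnbStmt`): the drift. Proof: first term, `BB`: `(EB G μ ψ)_z =
2 ∑_y G_zy (G μ G)_zy ψ_y`, at most `8 ∑_y κ_y |G_zy| |(G μ G)_zy| ≤ 8 (Im G_zz)^(1/2) (∑_y κ_y |(G μ G)_zy|²)^(1/2) ≤
C μs / κv` (`EnbStmt` (3) with `r = (3/2) C₀`, `T = R`), then VEX (4) (`g ≥ c₀`); `KK` the same. Second term: let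
`f^c = TT M P (dM_c ψ)`, `∑_(c ∈ b) ‖f^c_y‖² ≤ C (Λ/κv)^(1/2) = V²` for `y ∈ R` (VGR). For `z ∈ R`:
`|(dB_c (P f^c))_z| ≤ 2 ∑_(y ∈ U) |G_zc| |G_zy| |G_cy| P_y |f^c_y|`, the sum over `c ∈ b` is at most
`2 ∑_(y ∈ U) |G_zy| P_y (∑_c K_zc K_cy)^(1/2) V`, `P_y ≤ κ_y / (2 c₀)`, and by Cauchy-Schwarz
`∑_y κ_y |G_zy| (∑_c K_zc K_cy)^(1/2) ≤ (Im G_zz)^(1/2) (∑_c K_zc Im G_cc)^(1/2) ≤ C κv^(-1/2)`. The same for `dK`. Then VEX (4) for the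
vector `∑_c dM_c (P f^c)` (`TT` is linear). -/
def VdrStmt : Prop :=
  CmpStmt → VexStmt → TspStmt → VgrStmt → EnbStmt → ∀ c₀ C₀ : ℝ, ∃ C : ℝ, 1 ≤ C ∧
    ∀ (X : Type) [Fintype X] [DecidableEq X] (G : Matrix X X ℂ) (κ P w g : X → ℝ) (μ : X → ℂ)
      (b U R : Finset X) (κv μs Λ : ℝ), YBl G κ P w g μ b U R c₀ C₀ κv μs Λ → ∀ a ∈ R,
      ‖(TT (BB G) P *ᵥ (EB G μ *ᵥ psi P w (vir (BB G) P w))) a +
          ∑ c ∈ b, (TT (BB G) P *ᵥ (dB G c *ᵥ (dg ℂ P *ᵥ (TT (BB G) P *ᵥ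
            (dB G c *ᵥ psi P w (vir (BB G) P w)))))) a‖ ≤
        C * (μs / κv + Real.sqrt (Real.sqrt (Λ / κv)) / Real.sqrt κv) ∧
      |(TT (KK G) P *ᵥ (EK G μ *ᵥ psi P w (vir (KK G) P w))) a +
          ∑ c ∈ b, (TT (KK G) P *ᵥ (dK G c *ᵥ (dg ℝ P *ᵥ (TT (KK G) P *ᵥ
            (dK G c *ᵥ psi P w (vir (KK G) P w)))))) a| ≤
        C * (μs / κv + Real.sqrt (Real.sqrt (Λ / κv)) / Real.sqrt κv)

/-- VBL (uses VJT, VGR, VDR, BKJ): the pair in the flow of a block: jets with bounds. Proof: `BkjStmt` gives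
the jets of `BB (Gm r)`, `KK (Gm r)` with `e = EB G μ`, `EK G μ`, `μ = mub G mb b` (`dg 𝕜 (ind b)` is the diagonal
matrix there); VEX (1) for `IsUnit`; VJT; VGR, VDR (`Finset.sum_coe_sort`: the coordinates are the
elements of `b`). -/
def VblStmt : Prop :=
  JalStmt → JmaStmt → BkjStmt → EnbStmt → CmpStmt → VexStmt → TspStmt → VjtStmt → VgrStmt →
    VdrStmt → ∀ c₀ C₀ : ℝ, ∃ C : ℝ, 1 ≤ C ∧
    ∀ (X : Type) [Fintype X] [DecidableEq X] (b : Finset X) (q : ℝ × (b → ℝ))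
      (Gm : ℝ × (b → ℝ) → Matrix X X ℂ) (kf : ℝ → X → ℝ) (G : Matrix X X ℂ) (κ : X → ℝ)
      (mb : X → ℂ) (Pf : ℝ → X → ℝ) (P w g : X → ℝ) (U R : Finset X) (κv μs Λ : ℝ),
      BJ q Gm kf G κ mb →
      (∀ x, ContDiffAt ℝ 2 (fun t => Pf t x) q.1 ∧ Pf q.1 x = P x ∧
        deriv (fun t => Pf t x) q.1 = -ind b x) →
      YBl G κ P w g (mub G mb b) b U R c₀ C₀ κv μs Λ → ∀ a ∈ R,
      (∃ (g' : b → ℂ) (l' : ℂ), HJ (fun r => vir (BB (Gm r)) (Pf r.1) w a) q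
          (vir (BB G) P w a) g' l' ∧ ∑ c, ‖g' c‖ ^ 2 ≤ C * Real.sqrt (Λ / κv) ∧
        ‖l'‖ ≤ C * (μs / κv + Real.sqrt (Real.sqrt (Λ / κv)) / Real.sqrt κv)) ∧
      ∃ (g' : b → ℝ) (l' : ℝ), HJ (fun r => vir (KK (Gm r)) (Pf r.1) w a) q
          (vir (KK G) P w a) g' l' ∧ ∑ c, g' c ^ 2 ≤ C * Real.sqrt (Λ / κv) ∧
        |l'| ≤ C * (μs / κv + Real.sqrt (Real.sqrt (Λ / κv)) / Real.sqrt κv)

end Pool.Agent.ABY
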